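import Mathlib
import Pool.Agent.W355.FR.Stm

set_option autoImplicit false

namespace Pool.Agent.W598.FR

open Polynomial Pool.Agent.W355.FR

theorem bez (P : ℤ[X]) (hP : Irreducible P) (hd : 0 < P.natDegree) :
    ∃ (U V : ℤ[X]) (n : ℤ), n ≠ 0 ∧ U * P + V * derivative P = C n := by
  have hprim : P.IsPrimitive := hP.isPrimitive hd.ne'
  have hirr : Irreducible (P.map (Int.castRingHom ℚ)) :=
    (IsPrimitive.Int.irreducible_iff_irreducible_map_cast hprim).1 hP
  obtain ⟨u, v, huv⟩ := hirr.separable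
  obtain ⟨⟨n1, hn1⟩, h1⟩ := IsLocalization.integerNormalization_map_to_map (nonZeroDivisors ℤ) u
  obtain ⟨⟨n2, hn2⟩, h2⟩ := IsLocalization.integerNormalization_map_to_map (nonZeroDivisors ℤ) v
  have hn1' : n1 ≠ 0 := nonZeroDivisors.ne_zero hn1
  have hn2' : n2 ≠ 0 := nonZeroDivisors.ne_zero hn2
  refine ⟨C n2 * IsLocalization.integerNormalization (nonZeroDivisors ℤ) u,
    C n1 * IsLocalization.integerNormalization (nonZeroDivisors ℤ) v, n1 * n2,
    mul_ne_zero hn1' hn2', ?_⟩
  apply Polynomial.map_injective (Int.castRingHom ℚ) Int.cast_injective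
  have e : (algebraMap ℤ ℚ) = Int.castRingHom ℚ := rfl
  rw [e] at h1 h2
  rw [derivative_map] at huv
  simp only [Polynomial.map_add, Polynomial.map_mul, Polynomial.map_C, h1, h2]
  simp only [zsmul_eq_mul, Int.coe_castRingHom, Int.cast_mul, C_mul]
  have e1 : (C ((n1 : ℤ) : ℚ) : ℚ[X]) = ((n1 : ℤ) : ℚ[X]) := by simp
  have e2 : (C ((n2 : ℤ) : ℚ) : ℚ[X]) = ((n2 : ℤ) : ℚ[X]) := by simp
  rw [e1, e2]
  linear_combination ((n1 : ℤ) : ℚ[X]) * ((n2 : ℤ) : ℚ[X]) * huv

theorem hv_mod (P : ℤ[X]) (a b r M : ℤ) (h : M ∣ a - r * b) :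
    M ∣ hv P.natDegree P a b - b ^ P.natDegree * P.eval r := by
  unfold hv
  rw [Polynomial.eval_eq_sum_range, Finset.mul_sum, ← Finset.sum_sub_distrib]
  refine Finset.dvd_sum fun i hi => ?_
  have hi' : i ≤ P.natDegree := Nat.lt_succ_iff.1 (Finset.mem_range.1 hi)
  have h1 : a - r * b ∣ a ^ i - (r * b) ^ i := sub_dvd_pow_sub_pow _ _ _
  have h2 : b ^ P.natDegree = b ^ (P.natDegree - i) * b ^ i := by
    rw [← pow_add, Nat.sub_add_cancel hi']
  have h3 : P.coeff i * a ^ i * b ^ (P.natDegree - i) - b ^ P.natDegree * (P.coeff i * r ^ i) =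
      (a ^ i - (r * b) ^ i) * (P.coeff i * b ^ (P.natDegree - i)) := by
    rw [h2, mul_pow]; ring
  rw [h3]
  exact Dvd.dvd.mul_right (h.trans h1) _

theorem main : P_RL := by
  intro P hP hd
  obtain ⟨U, V, n, hn, hUV⟩ := bez P hP hd
  have hlc : P.leadingCoeff ≠ 0 := leadingCoeff_ne_zero.2 hP.ne_zero
  refine ⟨max P.leadingCoeff.natAbs n.natAbs, fun p hp hlt => ?_⟩
  have hp1 : ¬ (p : ℤ) ∣ P.leadingCoeff := by
    intro h
    have := Nat.le_of_dvd (Int.natAbs_pos.2 hlc) (Int.natCast_dvd.1 h)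
    have := le_max_left P.leadingCoeff.natAbs n.natAbs
    omega
  have hp2 : ¬ (p : ℤ) ∣ n := by
    intro h
    have := Nat.le_of_dvd (Int.natAbs_pos.2 hn) (Int.natCast_dvd.1 h)
    have := le_max_right P.leadingCoeff.natAbs n.natAbs
    omega
  have hpp : Prime (p : ℤ) := Nat.prime_iff_prime_int.1 hp
  have hpd : (p : ℤ) ∣ (p : ℤ) ^ 2 := dvd_pow_self _ two_ne_zero
  haveI : Fact p.Prime := ⟨hp⟩
  have hpos : (0 : ℤ) < (p : ℤ) ^ 2 := by
    have := hp.pos
    positivity
  refine ⟨(Finset.Ico (0 : ℤ) ((p : ℤ) ^ 2)).filter (fun r => (p : ℤ) ^ 2 ∣ P.eval r), ?_, ?_⟩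
  · have hne : P.map (Int.castRingHom (ZMod p)) ≠ 0 := by
      intro h0
      apply hp1
      have := congrArg (fun q => q.coeff P.natDegree) h0
      simp only [coeff_map, coeff_zero, Int.coe_castRingHom] at this
      exact (ZMod.intCast_zmod_eq_zero_iff_dvd _ _).1 this
    calc _ ≤ ((P.map (Int.castRingHom (ZMod p))).roots.toFinset).card := by
          refine Finset.card_le_card_of_injOn (fun r : ℤ => (r : ZMod p)) ?_ ?_
          · intro r hr
            simp only [Finset.coe_filter, Set.mem_setOf_eq] at hr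
            simp only [Multiset.mem_toFinset, Finset.mem_coe]
            rw [mem_roots hne, IsRoot.def]
            have h1 : (Int.castRingHom (ZMod p)) (P.eval r) = 0 := by
              rw [Int.coe_castRingHom]
              exact (ZMod.intCast_zmod_eq_zero_iff_dvd _ _).2 (hpd.trans hr.2)
            rw [← h1]
            have := Polynomial.eval_intCast_map (Int.castRingHom (ZMod p)) P r
            simpa using this
          · intro r hr r' hr' hrr
            simp only [Finset.coe_filter, Set.mem_setOf_eq, Finset.mem_Ico] at hr hr'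
            have hdv : (p : ℤ) ∣ r' - r := by
              have : (r : ZMod p) = (r' : ZMod p) := hrr
              rw [ZMod.intCast_eq_intCast_iff_dvd_sub] at this
              exact this
            obtain ⟨k, hk⟩ := Polynomial.binomExpansion P r (r' - r)
            rw [add_sub_cancel] at hk
            have hpr : ¬ (p : ℤ) ∣ (derivative P).eval r := by
              intro h
              apply hp2
              have := congrArg (eval r) hUV
              simp only [eval_add, eval_mul, eval_C] at this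
              rw [← this]
              exact dvd_add (Dvd.dvd.mul_left (hpd.trans hr.2) _) (Dvd.dvd.mul_left h _)
            have h5 : (p : ℤ) ^ 2 ∣ (derivative P).eval r * (r' - r) := by
              have h6 : (derivative P).eval r * (r' - r) =
                  P.eval r' - P.eval r - k * (r' - r) ^ 2 := by rw [hk]; ring
              rw [h6]
              exact dvd_sub (dvd_sub hr'.2 hr.2) (Dvd.dvd.mul_left (pow_dvd_pow_of_dvd hdv 2) _)
            have hco : IsCoprime ((p : ℤ) ^ 2) ((derivative P).eval r) :=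
              IsCoprime.pow_left ((Prime.coprime_iff_not_dvd hpp).2 hpr)
            have h7 : (p : ℤ) ^ 2 ∣ r' - r := hco.dvd_of_dvd_mul_left h5
            have h8 : r' - r = 0 := by
              refine Int.eq_zero_of_abs_lt_dvd h7 ?_
              rw [abs_lt]; constructor <;> omega
            omega
      _ ≤ (P.map (Int.castRingHom (ZMod p))).roots.card := Multiset.toFinset_card_le _
      _ ≤ (P.map (Int.castRingHom (ZMod p))).natDegree := card_roots' _
      _ ≤ P.natDegree := natDegree_map_le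
  · intro a b hab hdiv
    have hpb : ¬ (p : ℤ) ∣ b := by
      intro hb
      have h1 : (p : ℤ) ∣ P.leadingCoeff * a ^ P.natDegree := by
        have h2 := hpd.trans hdiv
        unfold hv at h2
        rw [Finset.sum_range_succ] at h2
        rw [Nat.sub_self, pow_zero, mul_one] at h2
        refine (dvd_add_right ?_).1 h2
        refine Finset.dvd_sum fun i hi => ?_
        refine Dvd.dvd.mul_left (hb.trans (dvd_pow_self _ ?_)) _
        have := Finset.mem_range.1 hi
        omega
      have h3 : (p : ℤ) ∣ a := by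
        rcases hpp.dvd_or_dvd h1 with h | h
        · exact absurd h hp1
        · exact hpp.dvd_of_dvd_pow h
      have h4 : (p : ℤ) ∣ (Int.gcd a b : ℤ) := Int.dvd_coe_gcd h3 hb
      rw [hab] at h4
      exact hpp.not_dvd_one (by simpa using h4)
    have hcb : IsCoprime ((p : ℤ) ^ 2) b :=
      IsCoprime.pow_left ((Prime.coprime_iff_not_dvd hpp).2 hpb)
    obtain ⟨s, c, hsc⟩ := hcb
    have hr : (p : ℤ) ^ 2 ∣ a - ((a * c) % (p : ℤ) ^ 2) * b := by
      have h1 : a * c % (p : ℤ) ^ 2 = a * c - (p : ℤ) ^ 2 * (a * c / (p : ℤ) ^ 2) := by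
        have := Int.emod_add_mul_ediv (a * c) ((p : ℤ) ^ 2)
        linarith
      rw [h1]
      refine ⟨a * s + (a * c / (p : ℤ) ^ 2) * b, ?_⟩
      linear_combination (-a) * hsc
    refine ⟨(a * c) % (p : ℤ) ^ 2, ?_, hr, hpb⟩
    rw [Finset.mem_filter, Finset.mem_Ico]
    refine ⟨⟨Int.emod_nonneg _ hpos.ne', Int.emod_lt_of_pos _ hpos⟩, ?_⟩
    have h2 := hv_mod P a b _ _ hr
    have h3 : (p : ℤ) ^ 2 ∣ b ^ P.natDegree * P.eval ((a * c) % (p : ℤ) ^ 2) :=
      (dvd_sub_right hdiv).1 h2
    exact (IsCoprime.pow_right ⟨s, c, hsc⟩ : IsCoprime ((p : ℤ) ^ 2) (b ^ P.natDegree)).dvd_of_dvd_mul_left h3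

end Pool.Agent.W598.FR
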